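import Pool.Agent.N44.FA.Stm

/-!
# FA/ADD: a linear automorphism with prescribed values

Author: helper697 (project FA of helper44).
-/

set_option autoImplicit false

namespace Pool.Agent.N697.FA

theorem z2 (c : ZMod 2) : c = 0 ∨ c = 1 := by
  revert c; decide

theorem z2' {c : ZMod 2} (h : c ≠ 0) : c = 1 := (z2 c).resolve_left h

theorem t_add : Pool.Agent.N44.FA.S_ADD := by
  intro V _ _ _ w D x y hx hy
  set E : Submodule (ZMod 2) V := D.map (w : V →ₗ[ZMod 2] V) with hE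
  set a : V := w x with ha
  have haE : a ∉ E := by
    rintro ⟨z, hz, h⟩
    have h1 : z = x := w.injective h
    exact hx (h1 ▸ hz)
  obtain ⟨ψ, hψ1, hψ2⟩ := Submodule.exists_le_ker_of_notMem haE
  obtain ⟨ψ', hψ'1, hψ'2⟩ := Submodule.exists_le_ker_of_notMem hy
  have hker : ∀ (f : V →ₗ[ZMod 2] ZMod 2), E ≤ LinearMap.ker f → ∀ e ∈ E, f e = 0 :=
    fun f hf e he => hf he
  obtain ⟨φ, hφE, hφa, hφy⟩ : ∃ φ : V →ₗ[ZMod 2] ZMod 2, (∀ e ∈ E, φ e = 0) ∧ φ a = 1 ∧
      φ y = 1 := by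
    have h1 := z2' hψ1
    have h2 := z2' hψ'1
    rcases z2 (ψ y) with h3 | h3
    · rcases z2 (ψ' a) with h4 | h4
      · refine ⟨ψ + ψ', fun e he => ?_, ?_, ?_⟩
        · rw [LinearMap.add_apply, hker ψ hψ2 e he, hker ψ' hψ'2 e he, add_zero]
        · rw [LinearMap.add_apply, h1, h4, add_zero]
        · rw [LinearMap.add_apply, h3, h2, zero_add]
      · exact ⟨ψ', hker ψ' hψ'2, h4, h2⟩
    · exact ⟨ψ, hker ψ hψ2, h1, h3⟩
  have h0 : φ (y - a) = 0 := by rw [map_sub, hφa, hφy, sub_self]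
  have hdbl : ∀ u : V, u + u = 0 := by
    intro u
    have h1 : (2 : ZMod 2) • u = u + u := two_smul (ZMod 2) u
    have h2 : (2 : ZMod 2) = 0 := by decide
    rw [← h1, h2, zero_smul]
  let τ : V →ₗ[ZMod 2] V := LinearMap.id + φ.smulRight (y - a)
  have hτ : ∀ v, τ v = v + φ v • (y - a) := fun v => rfl
  have hττ : Function.Involutive τ := by
    intro v
    rw [hτ (τ v), hτ v, map_add, map_smul, h0, smul_zero, add_zero, add_assoc, hdbl, add_zero]
  let τe : V ≃ₗ[ZMod 2] V := LinearEquiv.ofInvolutive τ hττ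
  refine ⟨w.trans τe, ?_, ?_⟩
  · intro z hz
    show τ (w z) = w z
    rw [hτ, hφE (w z) ⟨z, hz, rfl⟩, zero_smul, add_zero]
  · show τ (w x) = y
    rw [← ha, hτ, hφa, one_smul]
    abel

end Pool.Agent.N697.FA
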